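import Pool.Agent.helper62.VD.SpecL

/-! # Row vd:ALPN of MP_07c750_an (packets in a chart) -/

set_option autoImplicit false

open scoped ContDiff Topology InnerProductSpace ComplexConjugate ENNReal
open MeasureTheory Filter Set

namespace Pool.Agent.VD

open Pool.Agent.VQ (CH)

noncomputable section

variable {d : ℕ}

/-- the action of an element is a homeomorphism -/
def ALPN_homeo {Γ : Type} [Group Γ] [MulAction Γ (V d)] {K : Set (V d)} (hK : FdK Γ K) (γ : Γ) : V d ≃ₜ V d where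
  toFun z := γ • z
  invFun z := γ⁻¹ • z
  left_inv z := inv_smul_smul γ z
  right_inv z := smul_inv_smul γ z
  continuous_toFun := (hK.smooth γ).continuous
  continuous_invFun := (hK.smooth γ⁻¹).continuous

theorem ALPN_sup {Kd : ℕ} {η m R : ℝ} {q : P d} {f : V d → ℂ} (h : Pk Kd η m R q f) (w : V d) : ‖f w‖ ≤ m := by
  obtain ⟨A, -, -, h3, h4⟩ := h
  rw [h4 w, norm_mul, Complex.norm_exp_ofReal_mul_I, one_mul]
  have h5 := h3 0 (Nat.zero_le _) (w - q.1)
  rwa [norm_iteratedFDeriv_zero, pow_zero, mul_one] at h5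

theorem ALPN_smooth {Kd : ℕ} {η m R : ℝ} {q : P d} {f : V d → ℂ} (h : Pk Kd η m R q f) : ContDiff ℝ ∞ f := by
  obtain ⟨A, h1, -, -, h4⟩ := h
  have h5 : f = fun w => Complex.exp (((R * ⟪q.2, w - q.1⟫_ℝ : ℝ) : ℂ) * Complex.I) * A (w - q.1) := funext h4
  rw [h5]
  have h6 : ContDiff ℝ ∞ (fun w : V d => w - q.1) := contDiff_id.sub contDiff_const
  have h7 : ContDiff ℝ ∞ (fun w : V d => R * ⟪q.2, w - q.1⟫_ℝ) := contDiff_const.mul (contDiff_const.inner ℝ h6)
  have h8 : ContDiff ℝ ∞ (fun w : V d => (((R * ⟪q.2, w - q.1⟫_ℝ : ℝ) : ℂ)) * Complex.I) :=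
    (Complex.ofRealCLM.contDiff.comp h7).mul contDiff_const
  exact h8.cexp.mul (h1.comp h6)

theorem ALPN_proof (h1 : AMVI_stmt) (h2 : AHLD_stmt) : ALPN_stmt := by
  intro d Γ _ _ K k B r
  obtain ⟨C1, hC1, hb⟩ := h2 d Γ K k B (r + 1) 0
  set v1 : ℝ := (volume (Metric.ball (0 : V d) 1)).toReal with hv1
  have hv0 : 0 ≤ v1 := ENNReal.toReal_nonneg
  refine ⟨1 + C1 * v1, by nlinarith, ?_⟩
  intro G hK hG Kd η m R q f γ hq hR hη hη4 hm hP
  have hR0 : 0 < R := by linarith
  have hsup := ALPN_sup hP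
  have hsm := ALPN_smooth hP
  have hsmγ : ContDiff ℝ ∞ (fun z : V d => f (γ⁻¹ • z)) := hsm.comp (hK.smooth γ⁻¹)
  have hsupp : ∀ w, f w ≠ 0 → ‖w - q.1‖ ≤ R ^ (-(1 / 2) + η) := by
    obtain ⟨A, -, h4, -, h6⟩ := hP
    intro w hw
    refine h4 _ fun h7 => hw ?_
    rw [h6 w, h7, mul_zero]
  set ρ : ℝ := R ^ (-(1 / 2) + η) with hρ
  have hρ0 : 0 < ρ := Real.rpow_pos_of_pos hR0 _
  have hρ1 : ρ ≤ 1 := Real.rpow_le_one_of_one_le_of_nonpos hR (by linarith)
  refine ⟨hsup, ⟨hsmγ.continuous, ?_, ?_⟩, hsmγ, ?_⟩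
  · intro γ' hγ' z
    rw [Subgroup.mem_bot] at hγ'
    rw [hγ', one_smul]
  · have hcpt : IsCompact ((fun z : V d => γ • z) '' Metric.closedBall q.1 ρ) :=
      (isCompact_closedBall q.1 ρ).image (hK.smooth γ).continuous
    obtain ⟨b, hb'⟩ := hcpt.isBounded.exists_norm_le
    refine ⟨b, fun z _ hz => hb' z ⟨γ⁻¹ • z, ?_, smul_inv_smul γ z⟩⟩
    rw [mem_closedBall_iff_norm]
    exact hsupp _ hz
  · obtain ⟨-, -, hdpos, -, -, hmp, -, hint, -⟩ := h1 d Γ K k B G hK hG
    unfold nn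
    rw [setIntegral_univ]
    have e1 : ∫ z, ‖f (γ⁻¹ • z)‖ ^ 2 ∂mv G = ∫ z, ‖f z‖ ^ 2 ∂mv G :=
      (hmp γ⁻¹).integral_comp (ALPN_homeo hK γ⁻¹).measurableEmbedding (fun z => ‖f z‖ ^ 2)
    rw [e1, hint]
    have hle : ∀ z : V d, dens G z • ‖f z‖ ^ 2 ≤ (Metric.closedBall q.1 ρ).indicator (fun _ => C1 * m ^ 2) z := by
      intro z
      rw [smul_eq_mul]
      by_cases hz : z ∈ Metric.closedBall q.1 ρ
      · rw [Set.indicator_of_mem hz]
        rw [mem_closedBall_iff_norm] at hz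
        have hz1 : ‖z‖ ≤ r + 1 := by
          have h5 : z = q.1 + (z - q.1) := by abel
          rw [h5]
          exact (norm_add_le _ _).trans (by linarith)
        have h6 := ((hb G hK hG).2.2.2.2 z hz1).2.1 0 le_rfl
        have h7 := h6.1
        rw [norm_iteratedFDeriv_zero, Real.norm_eq_abs] at h7
        have h8 := le_abs_self (dens G z)
        exact mul_le_mul (h8.trans h7) (pow_le_pow_left₀ (norm_nonneg _) (hsup z) 2) (by positivity) (by linarith)
      · rw [Set.indicator_of_notMem hz]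
        have h5 : f z = 0 := by
          by_contra h6
          exact hz (mem_closedBall_iff_norm.2 (hsupp z h6))
        rw [h5]
        simp
    have hi : Integrable ((Metric.closedBall q.1 ρ).indicator (fun _ => C1 * m ^ 2)) (volume : Measure (V d)) := by
      rw [integrable_indicator_iff Metric.isClosed_closedBall.measurableSet]
      exact integrableOn_const (isCompact_closedBall q.1 ρ).measure_lt_top.ne
    have e2 := integral_mono_of_nonneg (μ := (volume : Measure (V d)))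
      (Eventually.of_forall fun z => by
        change (0 : ℝ) ≤ dens G z • ‖f z‖ ^ 2
        rw [smul_eq_mul]
        exact mul_nonneg (hdpos z).le (sq_nonneg _)) hi (Eventually.of_forall hle)
    refine e2.trans ?_
    rw [integral_indicator Metric.isClosed_closedBall.measurableSet, setIntegral_const, smul_eq_mul]
    have e3 : volume.real (Metric.closedBall q.1 ρ) = ρ ^ d * v1 := by
      rw [Measure.real, Measure.addHaar_closedBall _ _ hρ0.le, ENNReal.toReal_mul, finrank_euclideanSpace_fin,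
        ENNReal.toReal_ofReal (by positivity)]
    have e4 : ρ ^ d = R ^ (-((d : ℝ) / 2) + d * η) := by
      rw [hρ, ← Real.rpow_natCast, ← Real.rpow_mul hR0.le]
      congr 1
      ring
    rw [e3, e4]
    have h9 : 0 < R ^ (-((d : ℝ) / 2) + d * η) := Real.rpow_pos_of_pos hR0 _
    have h10 : 0 ≤ m ^ 2 * R ^ (-((d : ℝ) / 2) + d * η) := by positivity
    nlinarith

end

end Pool.Agent.VD
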