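import Pool.Agent.helper11.VD.SpecC
import Pool.Agent.helper51.VQ.DTV

/-!
# Row vd:DTA (MP_07c750_an, project VD): the deterministic conclusion, abstract form
-/

set_option autoImplicit false

open scoped ContDiff Topology InnerProductSpace ENNReal ComplexConjugate
open MeasureTheory Filter Set

namespace Pool.Agent.VD

open Pool.Agent.RPQ (PN PJ UN upd IsOp nst)
open Pool.Agent.VQ (PS KZ perZ cmZ stZ wdZ itZ InvS AdZ vz mZ wM inZ phZ qZ rk)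
open Pool.Agent.VN (aN)

noncomputable section

/-- the mass of the bad set -/
theorem DTA_bad (hKO1 : RPQ.KO1_stmt) (hKO2 : RPQ.KO2_stmt) (hKPZ : VQ.KPZ_stmt) (hKSZ : VQ.KSZ_stmt) (hOWZ : VQ.OWZ_stmt)
    (Γ : Type) [Group Γ] (Y : Type) [MeasurableSpace Y] [MulAction Γ Y] (m : Measure Y) (D : Set Y) (d : Y → Y → ℝ)
    (hPS : PS Γ Y m D d) (K : Y → Y → ℂ) (Q : Y → ℂ) (S : Set Y) (hS : MeasurableSet S) (hSI : InvS Γ S)
    (hKZ : KZ Γ d K) (hQ : Measurable Q) (N δ δ' K0 : ℝ) (b L n : ℕ) (hL : 1 ≤ L) (hN : 0 < N) (hδ : 0 < δ) (hδ' : 0 < δ')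
    (h1 : δ' ≤ δ) (h2 : δ' ≤ δ ^ 2)
    (hq : ∫⁻ p in D, ‖Q p‖ₑ ^ 2 ∂m ≤ ENNReal.ofReal ((1 + δ') * N))
    (hT : ∀ T : Lp ℂ 2 (m.restrict D) →L[ℂ] Lp ℂ 2 (m.restrict D),
      IsOp (m.restrict D) (perZ Γ K) T → ‖T‖ ≤ 1 + δ' ∧
      ∀ Φ : Lp ℂ 2 (m.restrict D), (Φ : Y → ℂ) =ᵐ[m.restrict D] Q → ‖T Φ - Φ‖ ^ 2 ≤ δ' * N)
    (hDTZ : ∀ (H : Type) [NormedAddCommGroup H] [InnerProductSpace ℂ H] [CompleteSpace H] (T P : H →L[ℂ] H) (Φ : H),
      ‖T‖ ≤ 1 + δ → RPQ.OProj P → ‖Φ‖ ≤ 1 + δ → ‖T Φ - Φ‖ ≤ δ → (∀ l ∈ AdZ b L n, ‖RPQ.wrd T P l‖ ≤ δ) → ‖P Φ‖ ^ 2 ≤ K0)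
    (hW : ∀ l ∈ AdZ b L n, ∫⁻ x in D, ∫⁻ y in D, ‖perZ Γ (wdZ m K S l) x y‖ₑ ^ 2 ∂m ∂m ≤ ENNReal.ofReal (δ' ^ 2)) :
    ∫ p in S, ‖Q p‖ ^ 2 ∂(m.restrict D) ≤ K0 * N := by
  have hfin : IsFiniteMeasure (m.restrict D) := ⟨by rw [Measure.restrict_apply_univ]; exact hPS.fin⟩
  obtain ⟨hp1, hp2, -, -⟩ := (hKPZ Γ Y m D d hPS).1 _ hKZ
  obtain ⟨⟨T, hTo⟩, -⟩ := hKO1 _ (m.restrict D) _ hp1 hp2
  obtain ⟨hTn, hTf⟩ := hT T hTo
  obtain ⟨-, -, hk3, -, hk5⟩ := hKO2 _ (m.restrict D)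
  obtain ⟨P, hP⟩ := hk3 (S.indicator (fun _ => (1 : ℂ))) (measurable_const.indicator hS) ⟨1, fun g => by
    by_cases hg : g ∈ S
    · rw [Set.indicator_of_mem hg, norm_one]
    · rw [Set.indicator_of_notMem hg, norm_zero]
      exact zero_le_one⟩
  obtain ⟨hPO, hPn⟩ := hk5 _ P hS hP
  have henorm : ∀ p, ‖Q p‖ₑ ^ 2 = ENNReal.ofReal (‖Q p‖ ^ 2) := by
    intro p
    rw [ENNReal.ofReal_pow (norm_nonneg _), ofReal_norm]
  have hmem : MemLp Q 2 (m.restrict D) := by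
    refine ⟨hQ.aestronglyMeasurable, ?_⟩
    rw [eLpNorm_lt_top_iff_lintegral_rpow_enorm_lt_top (by norm_num) (by norm_num)]
    have e1 : (2 : ENNReal).toReal = 2 := by norm_num
    rw [e1]
    refine lt_of_le_of_lt (le_of_eq ?_) (lt_of_le_of_lt hq ENNReal.ofReal_lt_top)
    refine lintegral_congr fun p => ?_
    rw [← ENNReal.rpow_natCast]
    norm_num
  have hΦe := hmem.coeFn_toLp
  have hfx := hTf _ hΦe
  have hqi : Integrable (fun p => ‖Q p‖ ^ 2) (m.restrict D) := by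
    refine ⟨(hQ.norm.pow_const 2).aestronglyMeasurable, ?_⟩
    rw [hasFiniteIntegral_iff_ofReal (Eventually.of_forall fun p => by positivity)]
    refine lt_of_le_of_lt (le_of_eq ?_) (lt_of_le_of_lt hq ENNReal.ofReal_lt_top)
    exact lintegral_congr fun p => (henorm p).symm
  have hq1 : ∫ p, ‖Q p‖ ^ 2 ∂(m.restrict D) ≤ (1 + δ') * N := by
    rw [← ENNReal.ofReal_le_ofReal_iff (by positivity), ofReal_integral_eq_lintegral_ofReal hqi (Eventually.of_forall fun p => by positivity)]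
    refine le_trans (le_of_eq ?_) hq
    exact lintegral_congr fun p => (henorm p).symm
  have hΦ0 : ‖hmem.toLp _‖ ^ 2 ≤ (1 + δ') * N := by
    rw [RPQ.KO_norm]
    refine le_trans (le_of_eq ?_) hq1
    refine integral_congr_ae ?_
    filter_upwards [hΦe] with g hg
    rw [hg]
  set c : ℝ := (Real.sqrt N)⁻¹ with hc
  have hc0 : 0 < c := inv_pos.2 (Real.sqrt_pos.2 hN)
  have hcc : c ^ 2 * N = 1 := by
    rw [hc, inv_pow, Real.sq_sqrt hN.le]
    exact inv_mul_cancel₀ hN.ne'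
  have hcn : ‖((c : ℝ) : ℂ)‖ = c := by rw [Complex.norm_real, Real.norm_eq_abs, abs_of_pos hc0]
  have hmain := hDTZ _ T P (((c : ℝ) : ℂ) • hmem.toLp _) (hTn.trans (by linarith)) hPO ?_ ?_ ?_
  · -- conclusion
    rw [map_smul, norm_smul, mul_pow, hcn, hPn] at hmain
    have e1 : ∫ y in S, ‖(hmem.toLp _ : Y → ℂ) y‖ ^ 2 ∂(m.restrict D) =
        ∫ y in S, ‖Q y‖ ^ 2 ∂(m.restrict D) := by
      refine integral_congr_ae ?_
      filter_upwards [ae_restrict_of_ae hΦe] with g hg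
      rw [hg]
    rw [e1] at hmain
    calc ∫ p in S, ‖Q p‖ ^ 2 ∂(m.restrict D) = (c ^ 2 * ∫ p in S, ‖Q p‖ ^ 2 ∂(m.restrict D)) * N := by
          rw [mul_comm (c ^ 2), mul_assoc, hcc, mul_one]
      _ ≤ K0 * N := mul_le_mul_of_nonneg_right hmain hN.le
  · -- the norm
    rw [norm_smul, hcn]
    have h3 : (c * ‖hmem.toLp _‖) ^ 2 ≤ (1 + δ) ^ 2 := by
      rw [mul_pow]
      calc c ^ 2 * ‖hmem.toLp _‖ ^ 2 ≤ c ^ 2 * ((1 + δ') * N) := mul_le_mul_of_nonneg_left hΦ0 (by positivity)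
        _ = (1 + δ') * (c ^ 2 * N) := by ring
        _ = 1 + δ' := by rw [hcc, mul_one]
        _ ≤ (1 + δ) ^ 2 := by nlinarith
    exact (abs_le_of_sq_le_sq' h3 (by linarith)).2
  · -- nearly fixed
    have e1 : T (((c : ℝ) : ℂ) • hmem.toLp _) - ((c : ℝ) : ℂ) • hmem.toLp _ = ((c : ℝ) : ℂ) • (T (hmem.toLp _) - hmem.toLp _) := by
      rw [map_smul, smul_sub]
    rw [e1, norm_smul, hcn]
    have h3 : (c * ‖T (hmem.toLp _) - hmem.toLp _‖) ^ 2 ≤ δ ^ 2 := by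
      rw [mul_pow]
      calc c ^ 2 * ‖T (hmem.toLp _) - hmem.toLp _‖ ^ 2 ≤ c ^ 2 * (δ' * N) := mul_le_mul_of_nonneg_left hfx (by positivity)
        _ = δ' * (c ^ 2 * N) := by ring
        _ = δ' := by rw [hcc, mul_one]
        _ ≤ δ ^ 2 := h2
    exact (abs_le_of_sq_le_sq' h3 hδ.le).2
  · -- words
    intro l hl
    have hne : l ≠ [] := by
      obtain ⟨c', hc1, -, hc3⟩ := hl
      intro h0
      rw [h0] at hc3
      have : c' = [] := List.map_eq_nil_iff.1 hc3.symm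
      rw [this, List.length_nil] at hc1
      omega
    have h3 := hOWZ Γ Y m D d hPS K S hKZ hS hSI T P hTo hP l hne
    have hZ := ((hKSZ Γ Y m D d hPS).2 K S hKZ hS hSI).2 l
    obtain ⟨hq1', hq2', -, -⟩ := (hKPZ Γ Y m D d hPS).1 _ hZ
    have h4 := RPQ.DET_ws (μ := m.restrict D) _ hq1' hq2'
    have h5 : (∫ x in D, ∫ y in D, ‖perZ Γ (wdZ m K S l) x y‖ ^ 2 ∂m ∂m) ≤ δ' ^ 2 := by
      refine (ENNReal.ofReal_le_ofReal_iff (by positivity)).1 ?_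
      rw [h4]
      exact hW l hl
    exact ((abs_le_of_sq_le_sq' (h3.trans h5) hδ'.le).2).trans h1

theorem DTA_proof (hDTZ : VQ.DTZ_stmt) (hOWZ : VQ.OWZ_stmt) (hKSZ : VQ.KSZ_stmt) (hKPZ : VQ.KPZ_stmt) (hKO1 : RPQ.KO1_stmt)
    (hKO2 : RPQ.KO2_stmt) : DTA_stmt := by
  intro e b L n he hb hL hn
  obtain ⟨δD, hδD, hDT⟩ := hDTZ e b L n he hb hL hn
  obtain ⟨δ', hδ', hd1, hdD, hdD2, hde⟩ : ∃ δ' : ℝ, 0 < δ' ∧ δ' ≤ 1 ∧ δ' ≤ δD ∧ δ' ≤ δD ^ 2 ∧ δ' ≤ e / 4 := by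
    refine ⟨min 1 (min δD (min (δD ^ 2) (e / 4))), ?_, min_le_left _ _, ?_, ?_, ?_⟩
    · exact lt_min one_pos (lt_min hδD (lt_min (by positivity) (by positivity)))
    · exact (min_le_right _ _).trans (min_le_left _ _)
    · exact (min_le_right _ _).trans ((min_le_right _ _).trans (min_le_left _ _))
    · exact (min_le_right _ _).trans ((min_le_right _ _).trans (min_le_right _ _))
  refine ⟨δ', hδ', hd1, ?_⟩
  intro Γ _ Y _ _ m D d hPS K Φ av W S N0 mn I0 hKZ hΦ hav hW hS hSI hN0 hmn0 hmn1 hav01 hbad hq hqW hT hwd hI0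
  have hfin : IsFiniteMeasure (m.restrict D) := ⟨by rw [Measure.restrict_apply_univ]; exact hPS.fin⟩
  have henorm : ∀ p, ‖Φ p‖ₑ ^ 2 = ENNReal.ofReal (‖Φ p‖ ^ 2) := by
    intro p
    rw [ENNReal.ofReal_pow (norm_nonneg _), ofReal_norm]
  have hqi : Integrable (fun p => ‖Φ p‖ ^ 2) (m.restrict D) := by
    refine ⟨(hΦ.norm.pow_const 2).aestronglyMeasurable, ?_⟩
    rw [hasFiniteIntegral_iff_ofReal (Eventually.of_forall fun p => by positivity)]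
    refine lt_of_le_of_lt (le_of_eq ?_) (lt_of_le_of_lt hq ENNReal.ofReal_lt_top)
    exact lintegral_congr fun p => (henorm p).symm
  have hQ1 : ∫ p, ‖Φ p‖ ^ 2 ∂(m.restrict D) ≤ (1 + δ') * N0 := by
    rw [← ENNReal.ofReal_le_ofReal_iff (by positivity), ofReal_integral_eq_lintegral_ofReal hqi (Eventually.of_forall fun p => by positivity)]
    refine le_trans (le_of_eq ?_) hq
    exact lintegral_congr fun p => (henorm p).symm
  have hW1 : (1 - δ') * N0 ≤ ∫ p in W, ‖Φ p‖ ^ 2 ∂(m.restrict D) := by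
    have hneg : 0 ≤ ∫ p in W, ‖Φ p‖ ^ 2 ∂(m.restrict D) := integral_nonneg fun p => by positivity
    rw [← ENNReal.ofReal_le_ofReal_iff hneg, ofReal_integral_eq_lintegral_ofReal hqi.integrableOn (Eventually.of_forall fun p => by positivity)]
    refine hqW.trans (le_of_eq ?_)
    rw [Measure.restrict_restrict hW]
    exact lintegral_congr fun p => henorm p
  have hW2 : ∫ p in Wᶜ, ‖Φ p‖ ^ 2 ∂(m.restrict D) ≤ 2 * δ' * N0 := by
    have h1 := integral_add_compl hW hqi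
    linarith
  have hBad : ∫ p in S, ‖Φ p‖ ^ 2 ∂(m.restrict D) ≤ ((2 * L + 1) / n + e) * N0 := by
    rcases hN0.eq_or_lt with h0 | h0
    · rw [← h0, mul_zero]
      rw [← h0, mul_zero] at hQ1
      exact (setIntegral_le_integral hqi (Eventually.of_forall fun p => by positivity)).trans hQ1
    · exact DTA_bad hKO1 hKO2 hKPZ hKSZ hOWZ Γ Y m D d hPS K Φ S hS hSI hKZ hΦ N0 δD δ' _ b L n hL h0 hδD hδ' hdD hdD2
        hq hT (fun H _ _ _ T P Φ => hDT H T P Φ) hwd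
  have hms := VQ.DTV_mass (μ := m.restrict D) av (fun p => ‖Φ p‖ ^ 2) hav hqi mn e
    (fun p => by positivity) (fun p => by
      have h1 := hav01 p
      rw [abs_le]
      constructor
      · linarith
      · linarith) he.le S W hS hW (fun p hp => hbad p hp.2 hp.1)
  have hlow : (1 - δ') * N0 ≤ ∫ p, ‖Φ p‖ ^ 2 ∂(m.restrict D) :=
    hW1.trans (setIntegral_le_integral hqi (Eventually.of_forall fun p => by positivity))
  set Qt := ∫ p, ‖Φ p‖ ^ 2 ∂(m.restrict D) with hQt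
  set X := ∫ p, av p * ‖Φ p‖ ^ 2 ∂(m.restrict D) with hX
  have g1 := abs_le.1 hms
  have g2 := abs_le.1 hI0
  have g3 : |mn * Qt - mn * N0| ≤ δ' * N0 := by
    have e1 : mn * Qt - mn * N0 = mn * (Qt - N0) := by ring
    rw [e1, abs_mul, abs_of_nonneg hmn0]
    refine (mul_le_of_le_one_left (abs_nonneg _) hmn1).trans ?_
    rw [abs_le]
    constructor <;> nlinarith
  have g4 := abs_le.1 g3
  have g5 : e * Qt ≤ e * ((1 + δ') * N0) := mul_le_mul_of_nonneg_left hQ1 he.le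
  have g6 : δ' * N0 ≤ e / 4 * N0 := mul_le_mul_of_nonneg_right hde hN0
  have g7 : e * ((1 + δ') * N0) ≤ 2 * (e * N0) := by
    have : e * ((1 + δ') * N0) = (1 + δ') * (e * N0) := by ring
    rw [this]
    exact mul_le_mul_of_nonneg_right (by linarith) (mul_nonneg he.le hN0)
  have g8 : (4 * e + (2 * L + 1) / n) * N0 = 2 * (e * N0) + ((2 * L + 1) / n + e) * N0 + e * N0 := by ring
  have g9 : 0 ≤ e * N0 := mul_nonneg he.le hN0
  rw [g8, abs_le]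
  constructor <;> linarith

end

end Pool.Agent.VD
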