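import Pool.Agent.helper80.VD.SpecF

set_option autoImplicit false

open scoped ContDiff Topology InnerProductSpace
open MeasureTheory Filter Set

namespace Pool.Agent.VD

noncomputable section

theorem GSC_proof (hGIN : GIN_stmt) : GSC_stmt := by
  intro d G hG L E hL
  obtain ⟨-, -, hpos, hsm, -⟩ := hGIN d G hG
  have hIG : Continuous (IG G) := hsm.continuous
  have hq : Continuous fun p : P d => ⟪IG G p.1 p.2, p.2⟫_ℝ :=
    ((hIG.comp continuous_fst).clm_apply continuous_snd).inner continuous_snd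
  have hH : Continuous (Ham G) := hq.div_const 2
  obtain ⟨c, hc, hcb⟩ := (hL.prod (isCompact_sphere (0 : V d) 1)).exists_forall_le' (f := fun p : P d => ⟪IG G p.1 p.2, p.2⟫_ℝ)
    hq.continuousOn (a := 0) (by
      rintro ⟨x, u⟩ ⟨-, hu⟩
      refine hpos x u ?_
      rintro rfl
      simp at hu)
  have hlow : ∀ x ∈ L, ∀ u : V d, c * ‖u‖ ^ 2 ≤ ⟪IG G x u, u⟫_ℝ := by
    intro x hx u
    by_cases hu : u = 0
    · subst hu
      simp
    · have hn : 0 < ‖u‖ := norm_pos_iff.2 hu
      have h1 := hcb (x, ‖u‖⁻¹ • u) ⟨hx, by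
        rw [mem_sphere_zero_iff_norm, norm_smul, norm_inv, norm_norm, inv_mul_cancel₀ hn.ne']⟩
      simp only [map_smul, real_inner_smul_left, real_inner_smul_right] at h1
      have h2 : ‖u‖⁻¹ * (‖u‖⁻¹ * ⟪IG G x u, u⟫_ℝ) = ⟪IG G x u, u⟫_ℝ / ‖u‖ ^ 2 := by
        field_simp
      rw [h2, le_div_iff₀ (by positivity)] at h1
      exact h1
  set R : ℝ := 2 * |E| / c + 1 with hR
  have hR1 : 1 ≤ R := by
    have : 0 ≤ 2 * |E| / c := by positivity
    linarith
  refine (hL.prod (isCompact_closedBall (0 : V d) R)).of_isClosed_subset ?_ ?_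
  · exact (hL.isClosed.preimage continuous_fst).inter (isClosed_le hH continuous_const)
  · rintro ⟨x, u⟩ ⟨hx, hu⟩
    refine ⟨hx, ?_⟩
    rw [mem_closedBall_zero_iff]
    by_contra hcon
    rw [not_le] at hcon
    change R < ‖u‖ at hcon
    have h1 := hlow x hx u
    change ⟪IG G x u, u⟫_ℝ / 2 ≤ E at hu
    have h2 : c * ‖u‖ ^ 2 ≤ 2 * |E| := by
      have := le_abs_self E
      linarith
    have h3 : R < ‖u‖ ^ 2 := by nlinarith
    have h4 : c * R ≤ 2 * |E| := by nlinarith
    have h5 : c * R = 2 * |E| + c := by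
      rw [hR]
      field_simp
    linarith

end

end Pool.Agent.VD
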