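import Pool.Agent.helper74.VD.SpecA4

/-! # Row vd:ATND of MP_07c750_an (the big step is a contraction) -/

set_option autoImplicit false

open scoped ContDiff Topology InnerProductSpace ComplexConjugate ENNReal
open MeasureTheory Filter Set

namespace Pool.Agent.VD

open Pool.Agent.VQ (CH KZ PS perZ cmZ)

noncomputable section

variable {d : ℕ}

theorem ATND_adm {C C' : ℝ} {A : Par} (hC : 1 ≤ C) (hC' : C' ≤ C) (h : Adm C A) : Adm C' A := by
  have hz : 0 < A.z := h.z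
  have hz1 : 0 < A.z1 := lt_of_lt_of_le (mul_pos (by linarith) hz) h.z1
  have hz2 : 0 < A.z2 := lt_of_lt_of_le (mul_pos (by linarith) hz1) h.z2
  exact ⟨h.e2, (mul_le_mul_of_nonneg_right hC' h.e2.le).trans h.e2', hz, (mul_le_mul_of_nonneg_right hC' hz.le).trans h.z1,
    (mul_le_mul_of_nonneg_right hC' hz1.le).trans h.z2, (mul_le_mul_of_nonneg_right hC' hz2.le).trans h.up⟩

theorem ATND_pow (n : ℕ) (x : ℝ) (hx : 0 ≤ x) (hn : 2 * (n * x) ≤ 1) : (1 + x) ^ n ≤ 1 + 2 * (n * x) := by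
  have hy0 : 0 ≤ (n : ℝ) * x := mul_nonneg (Nat.cast_nonneg _) hx
  have h1 : (1 + x) ^ n ≤ Real.exp (n * x) := by
    have h2 : 1 + x ≤ Real.exp x := by linarith [Real.add_one_le_exp x]
    calc (1 + x) ^ n ≤ (Real.exp x) ^ n := pow_le_pow_left₀ (by linarith) h2 n
      _ = Real.exp (n * x) := by rw [← Real.exp_nat_mul]
  have h3 : 1 - n * x ≤ Real.exp (-(n * x)) := by
    have := Real.add_one_le_exp (-((n : ℝ) * x))
    linarith
  have h4 : Real.exp (n * x) * Real.exp (-(n * x)) = 1 := by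
    rw [← Real.exp_add, add_neg_cancel, Real.exp_zero]
  have h5 : 0 < Real.exp (n * x) := Real.exp_pos _
  have h6 : Real.exp (n * x) * (1 - n * x) ≤ 1 :=
    (mul_le_mul_of_nonneg_left h3 h5.le).trans (le_of_eq h4)
  have h7 : Real.exp (n * x) ≤ 1 + 2 * (n * x) := by
    by_contra hcon
    push Not at hcon
    have h8 : (1 + 2 * (n * x)) * (1 - n * x) < Real.exp (n * x) * (1 - n * x) :=
      mul_lt_mul_of_pos_right hcon (by linarith)
    nlinarith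
  exact h1.trans h7

theorem ATND_num (A : Par) (he : 0 < A.e2) : ∃ R1 : ℝ, 1 ≤ R1 ∧ ∀ R : ℝ, R1 ≤ R →
    (1 + R ^ (-(1 / 5) : ℝ)) ^ (A.n R + 1) ≤ 1 + R ^ (-(1 / 6) : ℝ) := by
  refine ⟨(120 * A.e2 + 2) ^ 60, one_le_pow₀ (by linarith), fun R hR => ?_⟩
  have hR1 : 1 ≤ R := le_trans (one_le_pow₀ (by linarith)) hR
  have hR0 : 0 < R := by linarith
  have h1 : (120 * A.e2 + 2 : ℝ) ≤ R ^ (1 / 60 : ℝ) := by
    have h2 : ((120 * A.e2 + 2 : ℝ) ^ 60) ^ (1 / 60 : ℝ) ≤ R ^ (1 / 60 : ℝ) :=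
      Real.rpow_le_rpow (by positivity) hR (by norm_num)
    have h3 : ((120 * A.e2 + 2 : ℝ) ^ 60) ^ (1 / 60 : ℝ) = 120 * A.e2 + 2 := by
      rw [← Real.rpow_natCast, ← Real.rpow_mul (by positivity)]
      norm_num
    rwa [h3] at h2
  have hlog : Real.log R ≤ 60 * R ^ (1 / 60 : ℝ) := by
    have h2 := Real.log_le_rpow_div hR0.le (show (0 : ℝ) < 1 / 60 by norm_num)
    linarith
  have hlog0 : 0 ≤ Real.log R := Real.log_nonneg hR1
  have hn : ((A.n R + 1 : ℕ) : ℝ) ≤ 60 * A.e2 * R ^ (1 / 60 : ℝ) + 1 := by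
    push_cast
    have h2 : (A.n R : ℝ) ≤ A.e2 * Real.log R := Nat.floor_le (mul_nonneg he.le hlog0)
    have h3 : A.e2 * Real.log R ≤ A.e2 * (60 * R ^ (1 / 60 : ℝ)) := mul_le_mul_of_nonneg_left hlog he.le
    linarith
  have hp1 : 1 ≤ R ^ (1 / 60 : ℝ) := Real.one_le_rpow hR1 (by norm_num)
  have hn2 : 2 * ((A.n R + 1 : ℕ) : ℝ) ≤ R ^ (1 / 30 : ℝ) := by
    have h2 : R ^ (1 / 30 : ℝ) = R ^ (1 / 60 : ℝ) * R ^ (1 / 60 : ℝ) := by
      rw [← Real.rpow_add hR0]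
      norm_num
    rw [h2]
    have h3 : (120 * A.e2 + 2) * R ^ (1 / 60 : ℝ) ≤ R ^ (1 / 60 : ℝ) * R ^ (1 / 60 : ℝ) :=
      mul_le_mul_of_nonneg_right h1 (by positivity)
    linarith
  have h4 : R ^ (1 / 30 : ℝ) * R ^ (-(1 / 5) : ℝ) = R ^ (-(1 / 6) : ℝ) := by
    rw [← Real.rpow_add hR0]
    norm_num
  have h5 : 0 < R ^ (-(1 / 5) : ℝ) := Real.rpow_pos_of_pos hR0 _
  have h6 : 2 * (((A.n R + 1 : ℕ) : ℝ) * R ^ (-(1 / 5) : ℝ)) ≤ R ^ (-(1 / 6) : ℝ) := by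
    rw [← h4]
    have : 2 * (((A.n R + 1 : ℕ) : ℝ) * R ^ (-(1 / 5) : ℝ)) = (2 * ((A.n R + 1 : ℕ) : ℝ)) * R ^ (-(1 / 5) : ℝ) := by ring
    rw [this]
    exact mul_le_mul_of_nonneg_right hn2 h5.le
  have h7 : R ^ (-(1 / 6) : ℝ) ≤ 1 := Real.rpow_le_one_of_one_le_of_nonpos hR1 (by norm_num)
  exact (ATND_pow _ _ h5.le (h6.trans h7)).trans (by linarith)

theorem ATND_th {G : V d → V d →L[ℝ] V d} {Φ : ℝ → P d → P d} (hΦ : IsFlow G Φ) (f : V d → ℝ) (hf : Continuous f) (R t : ℝ) :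
    Continuous (thP Φ f R t) := by
  have h1 : Continuous (fun q : ℝ × P d => Φ q.1 q.2) := hΦ.smooth.continuous
  have h2 : Continuous (Function.uncurry fun (p : P d) (s : ℝ) => f (Φ s p).1) := by
    have h3 : Continuous (fun x : P d × ℝ => Φ x.2 x.1) := h1.comp (continuous_snd.prodMk continuous_fst)
    exact hf.comp (continuous_fst.comp h3)
  have h4 := intervalIntegral.continuous_parametric_intervalIntegral_of_continuous' (μ := volume) h2 0 t
  exact continuous_const.mul h4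

theorem ATND_snd (Γ : Type) : Measurable (fun y : YS Γ d => y.2) := by
  unfold YS
  exact @measurable_snd Γ (P d) ⊤ _

theorem ATND_proof (hATSD : ATSD_stmt) (hAUMD : AUMD_stmt) : ATND_stmt := by
  intro d Γ _ _ K k B r0 χ hK hχ
  obtain ⟨C1, hC1, hS⟩ := hATSD d Γ K k B r0 χ hK hχ
  obtain ⟨C2, hC2, hM⟩ := hAUMD d Γ K k B r0 χ hK hχ
  refine ⟨max C1 C2, le_trans hC1 (le_max_left _ _), fun ch A hch hA => ?_⟩
  have hmax : 1 ≤ max C1 C2 := le_trans hC1 (le_max_left _ _)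
  obtain ⟨R2, hR2, hS⟩ := hS ch A hch (ATND_adm hmax (le_max_left _ _) hA)
  obtain ⟨R3, hR3, hM⟩ := hM ch A hch (ATND_adm hmax (le_max_right _ _) hA)
  obtain ⟨R4, hR4, hN⟩ := ATND_num A hA.e2
  refine ⟨max (max R2 R3) R4, le_trans hR2 (le_trans (le_max_left _ _) (le_max_left _ _)), ?_⟩
  intro R G Φ hR hO
  have hRR2 : R2 ≤ R := le_trans (le_trans (le_max_left _ _) (le_max_left _ _)) hR
  have hRR3 : R3 ≤ R := le_trans (le_trans (le_max_right _ _) (le_max_left _ _)) hR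
  have hRR4 : R4 ≤ R := le_trans (le_max_right _ _) hR
  have hR0 : 0 < R := by linarith
  obtain ⟨m1, m2, m3, m4, m5, m6, m7⟩ := hM R G Φ hRR3 hO
  have hx0 : 0 < R ^ (-(1 / 5) : ℝ) := Real.rpow_pos_of_pos hR0 _
  have hnP : ∀ (T : Set Γ) (v : YS Γ d → ℂ), 0 ≤ nP G r0 T 2 R v := fun T v => integral_nonneg fun p => sq_nonneg _
  have hFP : ∀ (Λ : Subgroup Γ) (F : Set (V d)) (T : Set Γ), Dm Λ F T → ∀ k v, FP Λ T v → FP Λ T (Op (usn G Φ r0 χ ch A R k) v) :=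
    fun Λ F T hD k v hv => (m5 (usn G Φ r0 χ ch A R k) Λ F T v hD (m2 k) (fun p q h => ⟨(m4 k p q h).2.1, (m4 k p q h).2.2.1⟩) hv).1
  have hind : ∀ (Λ : Subgroup Γ) (F : Set (V d)) (T : Set Γ), Dm Λ F T → ∀ (k : ℕ) (v : YS Γ d → ℂ), FP Λ T v →
      nP G r0 T 2 R (Op (usn G Φ r0 χ ch A R k) v) ≤ ((1 + R ^ (-(1 / 5) : ℝ)) ^ (k + 1)) ^ 2 * nP G r0 T 2 R v := by
    intro Λ F T hD k
    induction k with
    | zero =>
      intro v hv
      have h1 := (hS R G Φ hRR2 hO Λ F T v hD hv).2.1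
      have h2 : usn (Γ := Γ) G Φ r0 χ ch A R 0 = us G Φ r0 χ ch A R := rfl
      rw [h2, zero_add, pow_one]
      exact h1
    | succ k ih =>
      intro v hv
      have h3 : Op (usn G Φ r0 χ ch A R (k + 1)) v = Op (us G Φ r0 χ ch A R) (Op (usn G Φ r0 χ ch A R k) v) := by
        funext p
        exact m7 Λ F T v hD hv k p
      rw [h3]
      have h4 := (hS R G Φ hRR2 hO Λ F T (Op (usn G Φ r0 χ ch A R k) v) hD (hFP Λ F T hD k v hv)).2.1
      refine h4.trans ?_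
      refine (mul_le_mul_of_nonneg_left (ih v hv) (sq_nonneg _)).trans (le_of_eq ?_)
      ring
  have h1 : ∀ (Λ : Subgroup Γ) (F : Set (V d)) (T : Set Γ) (v : YS Γ d → ℂ) (n : ℕ), Dm Λ F T → FP Λ T v → n ≤ A.n R →
      nP G r0 T 2 R (Op (usn G Φ r0 χ ch A R n) v) ≤ (1 + R ^ (-(1 / 6) : ℝ)) ^ 2 * nP G r0 T 2 R v := by
    intro Λ F T v k hD hv hk
    refine (hind Λ F T hD k v hv).trans (mul_le_mul_of_nonneg_right ?_ (hnP T v))
    refine pow_le_pow_left₀ (by positivity) ?_ 2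
    refine le_trans ?_ (hN R hRR4)
    exact pow_le_pow_right₀ (by linarith) (by omega)
  refine ⟨h1, fun f hf => ?_⟩
  have hth := ATND_th hO.flow f hf R
  have hph : ∀ p, ‖Complex.exp (-(((thP Φ f R (A.tu R) p : ℝ) : ℂ) * Complex.I))‖ = 1 := by
    intro p
    have h5 : -(((thP Φ f R (A.tu R) p : ℝ) : ℂ) * Complex.I) = ((-(thP Φ f R (A.tu R) p) : ℝ) : ℂ) * Complex.I := by
      push_cast
      ring
    rw [h5, Complex.norm_exp_ofReal_mul_I]
  have hKy := m2 (A.n R)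
  refine ⟨hth, ⟨?_, ?_, ?_, ?_⟩, ?_⟩
  · have h6 : Measurable (fun p : P d => Complex.exp (-(((thP Φ f R (A.tu R) p : ℝ) : ℂ) * Complex.I))) := by
      have h7 := (hth (A.tu R)).measurable
      fun_prop
    have h8 : Function.uncurry (KB (Γ := Γ) G Φ r0 χ ch A R f) = fun x : (YS Γ d) × (YS Γ d) =>
        Complex.exp (-(((thP Φ f R (A.tu R) x.1.2 : ℝ) : ℂ) * Complex.I)) * Function.uncurry (usn G Φ r0 χ ch A R (A.n R)) x := by
      funext x
      rfl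
    rw [h8]
    exact (h6.comp ((ATND_snd Γ).comp measurable_fst)).mul hKy.meas
  · obtain ⟨b, hb⟩ := hKy.bdd
    refine ⟨b, fun x y => ?_⟩
    unfold KB
    rw [norm_mul, hph, one_mul]
    exact hb x y
  · intro γ x y
    unfold KB
    have h9 : (γ • x).2 = x.2 := rfl
    have h10 : ub G Φ r0 χ ch A R (γ • x) (γ • y) = ub G Φ r0 χ ch A R x y := hKy.inv γ x y
    rw [h9, h10]
  · obtain ⟨T, hT⟩ := hKy.range
    refine ⟨T, fun x y hxy => hT x y ?_⟩
    intro h11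
    apply hxy
    unfold KB ub
    rw [h11, mul_zero]
  · intro Λ F T v hD hv
    refine le_trans (le_of_eq ?_) (h1 Λ F T v (A.n R) hD hv le_rfl)
    unfold nP
    refine integral_congr_ae (Eventually.of_forall fun p => ?_)
    have h12 : Op (KB G Φ r0 χ ch A R f) v p = Complex.exp (-(((thP Φ f R (A.tu R) p.2 : ℝ) : ℂ) * Complex.I)) *
        Op (usn G Φ r0 χ ch A R (A.n R)) v p := by
      unfold Op
      rw [← integral_const_mul]
      refine integral_congr_ae (Eventually.of_forall fun q => ?_)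
      change Complex.exp (-(((thP Φ f R (A.tu R) p.2 : ℝ) : ℂ) * Complex.I)) * usn G Φ r0 χ ch A R (A.n R) p q * v q = _
      ring
    change ‖Op (KB G Φ r0 χ ch A R f) v p‖ ^ 2 = ‖Op (usn G Φ r0 χ ch A R (A.n R)) v p‖ ^ 2
    rw [h12, norm_mul, hph, one_mul]

end

end Pool.Agent.VD
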